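import Pool.Agent.MP_c1891a_nt.H43.Spec

/-! The local form of a branch at infinity. -/

namespace Pool.Agent.MP_c1891a_nt.H43

open Finset Polynomial

section Val

variable {K Γ : Type} [Field K] [LinearOrderedCommGroupWithZero Γ]

theorem loc_tie (v : Valuation K Γ) {ι : Type} (I : Finset ι) (f : ι → K)
    (h0 : ∑ i ∈ I, f i = 0) (h1 : ∃ i ∈ I, f i ≠ 0) :
    ∃ i ∈ I, ∃ j ∈ I, i ≠ j ∧ f i ≠ 0 ∧ f j ≠ 0 ∧ v (f i) = v (f j) := by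
  classical
  obtain ⟨k, hk, hk0⟩ := h1
  obtain ⟨i, hi, hm⟩ := exists_max_image I (fun i => v (f i)) ⟨k, hk⟩
  have hv : v (f i) ≠ 0 := fun h => by
    have := hm k hk
    rw [h] at this
    exact hk0 (v.zero_iff.1 (le_zero_iff.1 this))
  by_contra hc
  have hlt : ∀ j ∈ I.erase i, v (f j) < v (f i) := fun j hj => by
    refine lt_of_le_of_ne (hm j (mem_of_mem_erase hj)) fun h => hc ?_
    exact ⟨i, hi, j, mem_of_mem_erase hj, (ne_of_mem_erase hj).symm, v.ne_zero_iff.1 hv,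
      v.ne_zero_iff.1 (h ▸ hv), h.symm⟩
  have h2 := v.map_sum_lt hv hlt
  rw [← add_sum_erase I f hi] at h0
  rw [eq_neg_of_add_eq_zero_right h0, v.map_neg] at h2
  exact lt_irrefl _ h2

theorem loc_zpow {g : Γ} {m : ℤ} (hm : m ≠ 0) (h : g ^ m = 1) : g = 1 := by
  have h2 : g ^ m.natAbs = 1 := by
    rcases Int.natAbs_eq m with k | k
    · rw [← zpow_natCast, ← k, h]
    · rw [← zpow_natCast, ← inv_eq_one, ← zpow_neg, ← k, h]
  exact (pow_eq_one_iff_left (Int.natAbs_ne_zero.2 hm)).1 h2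

theorem loc_zpow' {g : Γ} (g0 : g ≠ 0) {m n : ℤ} (hm : m ≠ n) (h : g ^ m = g ^ n) : g = 1 := by
  refine loc_zpow (sub_ne_zero.2 hm) ?_
  rw [zpow_sub₀ g0, h, div_self (zpow_ne_zero _ g0)]

variable [Algebra ℂ K] (v : Valuation K Γ) (hv : ∀ c : ℂ, c ≠ 0 → v (algebraMap ℂ K c) = 1)

include hv

theorem loc_c (c : ℂ) : v (algebraMap ℂ K c) ≤ 1 := by
  by_cases h : c = 0
  · simp [h]
  · exact (hv c h).le

theorem loc_le {u : K} (hu : v u = 1) (f : ℂ[X]) : v (aeval u f) ≤ 1 := by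
  rw [aeval_eq_sum_range]
  refine v.map_sum_le fun i _ => ?_
  rw [Algebra.smul_def, v.map_mul, v.map_pow, hu, one_pow, mul_one]
  exact loc_c v hv _

theorem loc_unit {u : K} (hu : v u = 1) {ρ : ℂ} (h : v (u - algebraMap ℂ K ρ) < 1) {G : ℂ[X]}
    (hG : G.eval ρ ≠ 0) : v (aeval u G) = 1 := by
  have e : G = C (G.eval ρ) + (X - C ρ) * (G /ₘ (X - C ρ)) := by
    rw [← modByMonic_X_sub_C_eq_C_eval, modByMonic_add_div]
  rw [e, map_add, map_mul, map_sub, aeval_X, aeval_C, aeval_C, v.map_add_eq_of_lt_left, hv _ hG]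
  rw [hv _ hG, v.map_mul]
  exact mul_lt_one_of_lt_of_le h (loc_le v hv hu _)

theorem loc_mult {u : K} (hu : v u = 1) {ρ : ℂ} (h : v (u - algebraMap ℂ K ρ) < 1) {G : ℂ[X]}
    (hG : G ≠ 0) : v (aeval u G) = v (u - algebraMap ℂ K ρ) ^ G.rootMultiplicity ρ := by
  obtain ⟨q, h1, h2⟩ := exists_eq_pow_rootMultiplicity_mul_and_not_dvd G hG ρ
  have h3 := congrArg (fun f => v (aeval u f)) h1
  simp only [map_mul, map_pow, map_sub, aeval_X, aeval_C] at h3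
  rw [h3, loc_unit v hv hu h (fun k => h2 (dvd_iff_isRoot.2 k)), mul_one]

theorem loc_root {u : K} (hu : v u = 1) {G : ℂ[X]} (hG : G ≠ 0) (h : v (aeval u G) ≠ 1) :
    ∃ ρ ∈ G.roots, v (u - algebraMap ℂ K ρ) < 1 := by
  by_contra hc
  push Not at hc
  refine h ?_
  rw [← C_leadingCoeff_mul_prod_multiset_X_sub_C (p := G) IsAlgClosed.card_roots_eq_natDegree,
    map_mul, v.map_mul, aeval_C, hv _ (leadingCoeff_ne_zero.2 hG), one_mul, map_multiset_prod,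
    map_multiset_prod]
  refine Multiset.prod_eq_one fun g hg => ?_
  simp only [Multiset.map_map, Multiset.mem_map, Function.comp, map_sub, aeval_X, aeval_C] at hg
  obtain ⟨ρ, h1, rfl⟩ := hg
  exact le_antisymm (v.map_sub_le hu.le (loc_c v hv ρ)) (hc ρ h1)

end Val

/-- the polynomial attached to one value of the second exponent. -/
noncomputable def locE (S : Finset (ℤ × ℤ)) (c : ℤ × ℤ → ℂ) (i j : ℤ × ℤ → ℤ) (n : ℕ) (k : ℤ) :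
    ℂ[X] :=
  ∑ μ ∈ S.filter fun μ => j μ = k, C (c μ) * X ^ ((n : ℤ) + i μ).toNat

theorem loc_sum {K : Type} [Field K] [Algebra ℂ K] (S : Finset (ℤ × ℤ)) (c : ℤ × ℤ → ℂ)
    (i j : ℤ × ℤ → ℤ) {n : ℕ} (hn : ∀ μ ∈ S, 0 ≤ (n : ℤ) + i μ) {u : K} (hu : u ≠ 0) (s : K) :
    ∑ k ∈ S.image j, aeval u (locE S c i j n k) * s ^ k =
      u ^ n * ∑ μ ∈ S, algebraMap ℂ K (c μ) * (u ^ i μ * s ^ j μ) := by
  rw [mul_sum, ← sum_fiberwise_of_maps_to (s := S) (t := S.image j) (g := j)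
    fun μ hμ => mem_image_of_mem j hμ]
  refine sum_congr rfl fun k _ => ?_
  unfold locE
  rw [map_sum, sum_mul]
  refine sum_congr rfl fun μ hμ => ?_
  obtain ⟨h1, rfl⟩ := mem_filter.1 hμ
  rw [map_mul, map_pow, aeval_C, aeval_X, ← zpow_natCast u, Int.toNat_of_nonneg (hn μ h1),
    zpow_add₀ hu, zpow_natCast]
  ring

theorem loc_ne (S : Finset (ℤ × ℤ)) (c : ℤ × ℤ → ℂ) (i j : ℤ × ℤ → ℤ) {n : ℕ}
    (hn : ∀ μ ∈ S, 0 ≤ (n : ℤ) + i μ) (hc : ∀ μ ∈ S, c μ ≠ 0)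
    (hi : ∀ μ ν, i μ = i ν → j μ = j ν → μ = ν) {k : ℤ} (hk : k ∈ S.image j) :
    locE S c i j n k ≠ 0 := by
  obtain ⟨μ, hμ, rfl⟩ := mem_image.1 hk
  intro h
  have h1 := congrArg (fun f : ℂ[X] => f.coeff ((n : ℤ) + i μ).toNat) h
  simp only [locE, finsetSum_coeff, coeff_C_mul_X_pow, coeff_zero] at h1
  rw [sum_eq_single_of_mem μ
    (show μ ∈ S.filter fun ν => j ν = j μ from mem_filter.2 ⟨hμ, rfl⟩), if_pos rfl] at h1
  · exact hc μ hμ h1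
  · intro ν hν hne
    obtain ⟨h2, h3⟩ := mem_filter.1 hν
    refine if_neg fun h4 => hne (hi ν μ ?_ h3)
    have h5 := hn μ hμ
    have h6 := hn ν h2
    omega

theorem loc_core (S : Finset (ℤ × ℤ)) (c : ℤ × ℤ → ℂ) (i j : ℤ × ℤ → ℤ)
    (hc : ∀ μ ∈ S, c μ ≠ 0) (hi : ∀ μ ν, i μ = i ν → j μ = j ν → μ = ν)
    (hN : ∀ ρ : ℂ, ρ ≠ 0 → ∃ t : ℂ, ∑ μ ∈ S, c μ * (ρ ^ i μ * t ^ j μ) ≠ 0) :
    ∃ T : Finset (ℂ × ℤ × ℤ), (∀ z ∈ T, z.1 ≠ 0 ∧ z.2.1 ≠ 0 ∧ z.2.2 ≠ 0) ∧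
      ∀ (K Γ : Type) [Field K] [LinearOrderedCommGroupWithZero Γ] [Algebra ℂ K]
        (v : Valuation K Γ), (∀ c : ℂ, c ≠ 0 → v (algebraMap ℂ K c) = 1) →
        ∀ u s : K, s ≠ 0 → v u = 1 → v s ≠ 1 →
        ∑ μ ∈ S, algebraMap ℂ K (c μ) * (u ^ i μ * s ^ j μ) = 0 →
        ∃ z ∈ T, u - algebraMap ℂ K z.1 ≠ 0 ∧ v (u - algebraMap ℂ K z.1) < 1 ∧
          v (u - algebraMap ℂ K z.1) ^ z.2.1 = v s ^ z.2.2 := by
  classical
  obtain ⟨n, hn⟩ : ∃ n : ℕ, ∀ μ ∈ S, 0 ≤ (n : ℤ) + i μ := by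
    refine ⟨S.sup fun μ => (i μ).natAbs, fun μ hμ => ?_⟩
    have := le_sup (f := fun μ => (i μ).natAbs) hμ
    omega
  have hE := fun k => loc_ne S c i j hn hc hi (k := k)
  refine ⟨((((S.image j).biUnion fun k => (locE S c i j n k).roots.toFinset) ×ˢ
    (S.image j) ×ˢ (S.image j)).image fun z => (z.1,
      (((locE S c i j n z.2.1).rootMultiplicity z.1 : ℤ) -
        ((locE S c i j n z.2.2).rootMultiplicity z.1 : ℤ), z.2.2 - z.2.1))).filter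
      fun z => z.1 ≠ 0 ∧ z.2.1 ≠ 0 ∧ z.2.2 ≠ 0, fun z hz => (mem_filter.1 hz).2, ?_⟩
  intro K Γ _ _ _ v hv u s s0 hu hs h
  have u0 : u ≠ 0 := v.ne_zero_iff.1 (by rw [hu]; exact one_ne_zero)
  have vs0 : v s ≠ 0 := v.ne_zero_iff.2 s0
  have h0 := loc_sum S c i j hn u0 s
  rw [h, mul_zero] at h0
  have hS : (S.image j).Nonempty := by
    obtain ⟨t, ht⟩ := hN 1 one_ne_zero
    exact (nonempty_of_sum_ne_zero ht).image j
  obtain ⟨k₀, hk₀, hk₁⟩ : ∃ k ∈ S.image j, v (aeval u (locE S c i j n k)) ≠ 1 := by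
    by_contra hc'
    push Not at hc'
    obtain ⟨k, hk⟩ := hS
    obtain ⟨a, ha, b, hb, hab, -, -, e⟩ := loc_tie v _ _ h0 ⟨k, hk, mul_ne_zero
      (v.ne_zero_iff.1 (by rw [hc' k hk]; exact one_ne_zero)) (zpow_ne_zero _ s0)⟩
    rw [v.map_mul, v.map_mul, hc' a ha, hc' b hb, one_mul, one_mul, map_zpow₀, map_zpow₀] at e
    exact hs (loc_zpow' vs0 hab e)
  obtain ⟨ρ, hρ, hlt⟩ := loc_root v hv hu (hE k₀ hk₀) hk₁
  have ρ0 : ρ ≠ 0 := fun k => by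
    rw [k, map_zero, sub_zero, hu] at hlt
    exact lt_irrefl _ hlt
  have hne : u - algebraMap ℂ K ρ ≠ 0 := fun k => by
    have e0 : ∀ k, aeval u (locE S c i j n k) = algebraMap ℂ K ((locE S c i j n k).eval ρ) :=
      fun k' => by rw [sub_eq_zero.1 k, aeval_algebraMap_apply, coe_aeval_eq_eval]
    obtain ⟨t, ht⟩ := hN ρ ρ0
    have h1 := loc_sum (K := ℂ) S c i j hn ρ0 t
    obtain ⟨k', hk', hk''⟩ := exists_ne_zero_of_sum_ne_zero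
      (h1 ▸ mul_ne_zero (pow_ne_zero n ρ0) ht)
    have h2 : (locE S c i j n k').eval ρ ≠ 0 := by
      have := left_ne_zero_of_mul hk''
      rwa [coe_aeval_eq_eval] at this
    obtain ⟨a, -, b, -, hab, ha, hb, e⟩ := loc_tie v _ _ h0 ⟨k', hk', mul_ne_zero
      (by rw [e0]; exact (_root_.map_ne_zero _).2 h2) (zpow_ne_zero _ s0)⟩
    rw [e0] at ha hb
    rw [e0, e0, v.map_mul, v.map_mul, hv _ ((_root_.map_ne_zero _).1 (left_ne_zero_of_mul ha)),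
      hv _ ((_root_.map_ne_zero _).1 (left_ne_zero_of_mul hb)), one_mul, one_mul, map_zpow₀,
      map_zpow₀] at e
    exact hs (loc_zpow' vs0 hab e)
  have w0 : v (u - algebraMap ℂ K ρ) ≠ 0 := v.ne_zero_iff.2 hne
  obtain ⟨a, ha, b, hb, hab, -, -, e⟩ := loc_tie v _ _ h0 ⟨k₀, hk₀, mul_ne_zero
    (v.ne_zero_iff.1 (by rw [loc_mult v hv hu hlt (hE k₀ hk₀)]; exact pow_ne_zero _ w0))
    (zpow_ne_zero _ s0)⟩
  rw [v.map_mul, v.map_mul, loc_mult v hv hu hlt (hE a ha), loc_mult v hv hu hlt (hE b hb),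
    map_zpow₀, map_zpow₀] at e
  have e2 : v (u - algebraMap ℂ K ρ) ^ ((((locE S c i j n a).rootMultiplicity ρ : ℤ) -
      ((locE S c i j n b).rootMultiplicity ρ : ℤ))) = v s ^ (b - a) := by
    rw [zpow_sub₀ w0, zpow_sub₀ vs0, zpow_natCast, zpow_natCast,
      div_eq_div_iff (pow_ne_zero _ w0) (zpow_ne_zero _ vs0), e, mul_comm]
  refine ⟨_, mem_filter.2 ⟨mem_image.2 ⟨(ρ, a, b), mem_product.2 ⟨mem_biUnion.2
    ⟨k₀, hk₀, Multiset.mem_toFinset.2 hρ⟩, mem_product.2 ⟨ha, hb⟩⟩, rfl⟩, ρ0, fun k => ?_,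
    sub_ne_zero.2 hab.symm⟩, hne, hlt, e2⟩
  dsimp only at k
  rw [k, zpow_zero] at e2
  exact hs (loc_zpow (sub_ne_zero.2 hab.symm) e2.symm)

theorem loc_mono {K : Type} [Field K] {u s : K} (hu : u ≠ 0) (hs : s ≠ 0) (a b a' b' m n : ℤ) :
    (u ^ b' * s ^ (-b)) ^ m * (u ^ (-a') * s ^ a) ^ n =
      u ^ (b' * m - a' * n) * s ^ (a * n - b * m) := by
  rw [mul_zpow, mul_zpow, ← zpow_mul, ← zpow_mul, ← zpow_mul, ← zpow_mul,
    show b' * m - a' * n = b' * m + -a' * n by ring, show a * n - b * m = -b * m + a * n by ring,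
    zpow_add₀ hu, zpow_add₀ hs]
  ring

theorem loc_inv {K : Type} [Field K] {x y : K} (hx : x ≠ 0) (hy : y ≠ 0) {a b a' b' : ℤ}
    (h : a * b' - b * a' = 1) :
    (x ^ a * y ^ b) ^ b' * (x ^ a' * y ^ b') ^ (-b) = x ∧
      (x ^ a * y ^ b) ^ (-a') * (x ^ a' * y ^ b') ^ a = y := by
  have e : ∀ m n : ℤ, (x ^ a * y ^ b) ^ m * (x ^ a' * y ^ b') ^ n =
      x ^ (a * m + a' * n) * y ^ (b * m + b' * n) := fun m n => by
    rw [mul_zpow, mul_zpow, ← zpow_mul, ← zpow_mul, ← zpow_mul, ← zpow_mul, zpow_add₀ hx,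
      zpow_add₀ hy]
    ring
  rw [e, e, show a * b' + a' * -b = 1 by linarith, show b * b' + b' * -b = 0 by ring,
    show a * -a' + a' * a = 0 by ring, show b * -a' + b' * a = 1 by linarith]
  simp

theorem loc_dir (P : LP) (hP : NoCoset P) {a b a' b' : ℤ} (h : a * b' - b * a' = 1) :
    ∃ Φ : Finset Edge,
      (∀ φ ∈ Φ, φ.a * φ.b' - φ.b * φ.a' = 1 ∧ φ.ρ ≠ 0 ∧ φ.I ≠ 0 ∧ φ.J ≠ 0) ∧
      ∀ (K : Type) [Field K] [Algebra ℂ K] (O : ValuationSubring K),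
        (∀ c : ℂ, c ≠ 0 → O.valuation (algebraMap ℂ K c) = 1) →
        ∀ x y : K, x ≠ 0 → y ≠ 0 → ev P x y = 0 → (O.valuation x ≠ 1 ∨ O.valuation y ≠ 1) →
        O.valuation (x ^ a * y ^ b) = 1 →
        ∃ φ ∈ Φ, x ^ φ.a * y ^ φ.b - algebraMap ℂ K φ.ρ ≠ 0 ∧
          O.valuation (x ^ φ.a * y ^ φ.b - algebraMap ℂ K φ.ρ) < 1 ∧
          O.valuation (x ^ φ.a' * y ^ φ.b') ≠ 1 ∧
          O.valuation (x ^ φ.a * y ^ φ.b - algebraMap ℂ K φ.ρ) ^ φ.I =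
            O.valuation (x ^ φ.a' * y ^ φ.b') ^ φ.J := by
  classical
  obtain ⟨T, h1, h2⟩ := loc_core P.coeff.support (fun μ => (P.coeff μ : ℂ))
    (fun μ => b' * μ.1 - a' * μ.2) (fun μ => a * μ.2 - b * μ.1)
    (fun μ hμ => Int.cast_ne_zero.2 (Finsupp.mem_support_iff.1 hμ))
    (fun μ ν k1 k2 => Prod.ext (by linear_combination a * k1 + a' * k2 - (μ.1 - ν.1) * h)
      (by linear_combination b * k1 + b' * k2 - (μ.2 - ν.2) * h))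
    (fun ρ ρ0 => by
      obtain ⟨t, t0, ht⟩ := hP (ρ ^ b') (ρ ^ (-a')) (zpow_ne_zero _ ρ0) (zpow_ne_zero _ ρ0) (-b) a
        (by
          by_contra k
          push Not at k
          rw [k.2, neg_eq_zero.1 k.1] at h
          simp at h)
      refine ⟨t, ?_⟩
      unfold ev at ht
      simpa only [mul_assoc, loc_mono ρ0 t0] using ht)
  refine ⟨T.image fun z => ⟨a, b, a', b', z.1, z.2.1, z.2.2⟩, fun φ hφ => ?_, ?_⟩
  · obtain ⟨z, hz, rfl⟩ := mem_image.1 hφ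
    exact ⟨h, h1 z hz⟩
  intro K _ _ O hv x y hx hy h0 hxy hu
  have u0 : x ^ a * y ^ b ≠ 0 := mul_ne_zero (zpow_ne_zero _ hx) (zpow_ne_zero _ hy)
  have s0 : x ^ a' * y ^ b' ≠ 0 := mul_ne_zero (zpow_ne_zero _ hx) (zpow_ne_zero _ hy)
  obtain ⟨e1, e2⟩ := loc_inv hx hy h
  have hs : O.valuation (x ^ a' * y ^ b') ≠ 1 := fun k => by
    rcases hxy with k1 | k1
    · exact k1 (by rw [← e1, Valuation.map_mul, map_zpow₀, map_zpow₀, hu, k]; simp)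
    · exact k1 (by rw [← e2, Valuation.map_mul, map_zpow₀, map_zpow₀, hu, k]; simp)
  obtain ⟨z, hz, k1, k2, k3⟩ := h2 K _ O.valuation hv _ _ s0 hu hs (by
    unfold ev at h0
    refine Eq.trans (sum_congr rfl fun μ _ => ?_) h0
    rw [← loc_mono u0 s0, e1, e2, map_intCast, mul_assoc])
  exact ⟨_, mem_image_of_mem _ hz, k1, k2, hs, k3⟩

theorem loc_prim (m n : ℤ) (h : m ≠ 0 ∨ n ≠ 0) :
    ∃ g a b a' b' : ℤ, g ≠ 0 ∧ a * b' - b * a' = 1 ∧ m = g * a ∧ n = g * b := by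
  obtain ⟨a, b, k1, k2, k3⟩ := Int.exists_gcd_one (Int.gcd_pos_iff.2 h)
  obtain ⟨p, q, k4⟩ := Int.isCoprime_iff_gcd_eq_one.2 k1
  exact ⟨(Int.gcd m n : ℤ), a, b, -q, p, by exact_mod_cast (Int.gcd_pos_iff.2 h).ne',
    by linarith, by rw [mul_comm]; exact k2, by rw [mul_comm]; exact k3⟩

theorem sLoc : SLoc := by
  classical
  intro P hP
  have key : ∀ z : (ℤ × ℤ) × (ℤ × ℤ), ∃ Φ : Finset Edge,
      (∀ φ ∈ Φ, φ.a * φ.b' - φ.b * φ.a' = 1 ∧ φ.ρ ≠ 0 ∧ φ.I ≠ 0 ∧ φ.J ≠ 0) ∧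
      ∀ (K : Type) [Field K] [Algebra ℂ K] (O : ValuationSubring K),
        (∀ c : ℂ, c ≠ 0 → O.valuation (algebraMap ℂ K c) = 1) →
        ∀ x y : K, x ≠ 0 → y ≠ 0 → ev P x y = 0 → (O.valuation x ≠ 1 ∨ O.valuation y ≠ 1) →
        z.1 ≠ z.2 → O.valuation (x ^ z.1.1 * y ^ z.1.2) = O.valuation (x ^ z.2.1 * y ^ z.2.2) →
        ∃ φ ∈ Φ, x ^ φ.a * y ^ φ.b - algebraMap ℂ K φ.ρ ≠ 0 ∧
          O.valuation (x ^ φ.a * y ^ φ.b - algebraMap ℂ K φ.ρ) < 1 ∧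
          O.valuation (x ^ φ.a' * y ^ φ.b') ≠ 1 ∧
          O.valuation (x ^ φ.a * y ^ φ.b - algebraMap ℂ K φ.ρ) ^ φ.I =
            O.valuation (x ^ φ.a' * y ^ φ.b') ^ φ.J := fun z => by
    by_cases hz : z.1 = z.2
    · exact ⟨∅, fun _ h => absurd h (notMem_empty _), fun _ _ _ _ _ _ _ _ _ _ _ h => absurd hz h⟩
    obtain ⟨g, a, b, a', b', g0, h, k1, k2⟩ := loc_prim (z.1.1 - z.2.1) (z.1.2 - z.2.2) (by
      by_contra k
      push Not at k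
      exact hz (Prod.ext (sub_eq_zero.1 k.1) (sub_eq_zero.1 k.2)))
    obtain ⟨Φ, h1, h2⟩ := loc_dir P hP h
    refine ⟨Φ, h1, fun K _ _ O hv x y hx hy h0 hxy _ e => h2 K O hv x y hx hy h0 hxy ?_⟩
    refine loc_zpow g0 ?_
    have e1 : x ^ z.1.1 * y ^ z.1.2 = (x ^ a * y ^ b) ^ g * (x ^ z.2.1 * y ^ z.2.2) := by
      rw [mul_zpow, ← zpow_mul, ← zpow_mul, show z.1.1 = a * g + z.2.1 by linarith,
        show z.1.2 = b * g + z.2.2 by linarith, zpow_add₀ hx, zpow_add₀ hy]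
      ring
    rw [e1, Valuation.map_mul, map_zpow₀] at e
    exact (mul_eq_right₀ (O.valuation.ne_zero_iff.2
      (mul_ne_zero (zpow_ne_zero _ hx) (zpow_ne_zero _ hy)))).1 e
  choose Φ h1 h2 using key
  refine ⟨(P.coeff.support ×ˢ P.coeff.support).biUnion Φ, fun φ hφ => ?_, ?_⟩
  · obtain ⟨z, -, hz⟩ := mem_biUnion.1 hφ
    exact h1 z φ hz
  intro K _ _ O hv x y hx hy h0 hxy
  have hc : ∀ μ ∈ P.coeff.support, O.valuation (P.coeff μ : K) = 1 := fun μ hμ => by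
    rw [← map_intCast (algebraMap ℂ K)]
    exact hv _ (Int.cast_ne_zero.2 (Finsupp.mem_support_iff.1 hμ))
  obtain ⟨t, -, ht⟩ := hP 1 1 one_ne_zero one_ne_zero 1 0 (Or.inl one_ne_zero)
  obtain ⟨μ₀, hμ₀⟩ := nonempty_of_sum_ne_zero ht
  obtain ⟨μ, hμ, ν, hν, hne, -, -, e⟩ := loc_tie O.valuation _ _ h0 ⟨μ₀, hμ₀, mul_ne_zero
    (mul_ne_zero (O.valuation.ne_zero_iff.1 (by rw [hc μ₀ hμ₀]; exact one_ne_zero))
      (zpow_ne_zero _ hx)) (zpow_ne_zero _ hy)⟩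
  rw [mul_assoc, mul_assoc, Valuation.map_mul, Valuation.map_mul _ (P.coeff ν : K), hc μ hμ,
    hc ν hν, one_mul, one_mul] at e
  obtain ⟨φ, k1, k2⟩ := h2 (μ, ν) K O hv x y hx hy h0 hxy hne e
  exact ⟨φ, mem_biUnion.2 ⟨(μ, ν), mem_product.2 ⟨hμ, hν⟩, k1⟩, k2⟩

end Pool.Agent.MP_c1891a_nt.H43
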